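import Mathlib
import Pool.Agent.V11307.RV.G5

/-!
# The monotone triangle polynomial at a reversed row

We prove `α(2 n + 1; 2 n + 1, 2 n, ..., 2, 1) = (-1)^n α(n; 2, 4, ..., 2 n)` for all `n`.

The proof takes place in the shuffle algebra (with kernel `1 - x + x y`) generated by letters `t_a`: a word
`t_{k_1} ... t_{k_n}` is an alternating polynomial and `α(n; k_1, ..., k_n)` is the value at `(1, ..., 1)` of its
quotient by the Vandermonde product.  After multiplication by `∏_{i<j} (z_i z_j - 1) ∏ (1 + z_i ^ 3)` both words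
`t_N ... t_1` and `t_2 t_4 ... t_{2n}` become determinants of size `N` and `n`.  With `a = 1 / (z (z - 1))` and
`b = - z ^ 2 / (z - 1)` one has `1 / a + 3 a + a ^ 2 = 1 / b + 3 b + b ^ 2`, and therefore, for `N = 2 n + 1`, the
columns of even index of the large determinant can be replaced by multiples of the columns of the small one.
Putting variables equal to `1` one after the other, the large determinant reduces to the small one.
-/

set_option autoImplicit false

namespace Pool.Agent.Results.MP_cbdfa9_co.ReversedRow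

open Finset Pool.Agent.V11175.Sh Pool.Agent.V11175.Sh.A Pool.Agent.V11175.MT Pool.Agent.V11307.RV

/-- **The monotone triangle polynomial at a reversed row.**  First: the monotone triangle polynomials exist and
are unique.  Second: for all `n`, with `P = α(n; ·)` and `Q = α(2 n + 1; ·)`,
`Q(2 n + 1, 2 n, ..., 1) = (-1)^n P(2, 4, ..., 2 n)`, and `P(2, 4, ..., 2 n)` is the number of monotone triangles
with bottom row `(2, 4, ..., 2 n)`. -/
theorem result :
    (∀ n : ℕ, ∃! P : MvPolynomial (Fin n) ℚ, IsAlpha n P) ∧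
    ∀ n : ℕ, ∀ P : MvPolynomial (Fin n) ℚ, IsAlpha n P →
      ∀ Q : MvPolynomial (Fin (2 * n + 1)) ℚ, IsAlpha (2 * n + 1) Q →
      MvPolynomial.eval (fun j : Fin (2 * n + 1) => ((2 * n + 1 - (j : ℕ) : ℕ) : ℚ)) Q =
        (-1) ^ n * MvPolynomial.eval (fun j : Fin n => ((2 * ((j : ℕ) + 1) : ℕ) : ℚ)) P ∧
      MvPolynomial.eval (fun j : Fin n => ((2 * ((j : ℕ) + 1) : ℕ) : ℚ)) P =
        numMT n (fun j : Fin n => ((2 * ((j : ℕ) + 1) : ℕ) : ℤ)) := by
  refine ⟨existsUnique, ?_⟩
  intro n P hP Q hQ
  have h1 := eval_eq hP (fun j : Fin n => 2 * ((j : ℕ) + 1))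
  have h2 := eval_eq hQ (fun j : Fin (2 * n + 1) => 2 * n + 1 - (j : ℕ))
  rw [h1, h2]
  constructor
  · rw [alpha_of_list _ _ (ofFn_rl (2 * n + 1)), alpha_of_list _ _ (ofFn_vl n), al_rev]
  · refine alpha_eq_num _ (fun i j hij => ?_)
    rw [Fin.lt_def] at hij
    change 2 * ((i : ℕ) + 1) < 2 * ((j : ℕ) + 1)
    omega

end Pool.Agent.Results.MP_cbdfa9_co.ReversedRow
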